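import Pool.Agent.Lib.MP_b2ebfc_lc.Base

/-!
# Module APP1: the identity of approach I
-/

set_option autoImplicit false

namespace Pool.Agent.Lib.MP_b2ebfc_lc.H66

open Finset

variable {α β : Type} [Fintype α] [DecidableEq α] [Fintype β] [DecidableEq β]

theorem sum_pc {γ : Type} [Fintype γ] [DecidableEq γ] (j : ℕ) (A : Finset γ)
    (g : Finset γ → ℤ) :
    ∑ S ∈ powersetCard j A, g S = ∑ S : Finset γ, if S ⊆ A ∧ S.card = j then g S else 0 := by
  rw [← Finset.sum_filter]
  refine Finset.sum_congr ?_ fun _ _ => rfl
  ext S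
  simp [mem_powersetCard]

theorem sum_ps {γ : Type} [Fintype γ] [DecidableEq γ] (A : Finset γ) (g : Finset γ → ℤ) :
    ∑ S ∈ A.powerset, g S = ∑ S : Finset γ, if S ⊆ A then g S else 0 := by
  rw [← Finset.sum_filter]
  refine Finset.sum_congr ?_ fun _ _ => rfl
  ext S
  simp

/-- The number of sets `U` with `u` elements, containing `Q` and disjoint from `S`. -/
theorem card_between (u : ℕ) (Q S : Finset α) :
    ((univ : Finset (Finset α)).filter fun U => U.card = u ∧ Q ⊆ U ∧ S ⊆ Uᶜ).card =
      if S ⊆ Qᶜ ∧ Q.card ≤ u then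
        (Fintype.card α - S.card - Q.card).choose (u - Q.card) else 0 := by
  split_ifs with h
  · obtain ⟨h1, h2⟩ := h
    have hd : Disjoint S Q := by
      rw [Finset.disjoint_left]
      intro x hx hq
      have := h1 hx
      simp at this
      exact this hq
    have hc : ((S ∪ Q)ᶜ).card = Fintype.card α - S.card - Q.card := by
      rw [card_compl, card_union_of_disjoint hd]
      omega
    rw [← hc, ← card_powersetCard]
    refine Finset.card_bij (fun U _ => U \ Q) ?_ ?_ ?_
    · intro U hU
      simp only [mem_filter, mem_univ, true_and] at hU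
      obtain ⟨a1, a2, a3⟩ := hU
      rw [mem_powersetCard]
      constructor
      · intro x hx
        rw [mem_sdiff] at hx
        simp only [mem_compl, mem_union, not_or]
        refine ⟨fun hs => ?_, hx.2⟩
        have := a3 hs
        simp at this
        exact this hx.1
      · rw [card_sdiff_of_subset a2, a1]
    · intro U hU V hV hUV
      simp only [mem_filter, mem_univ, true_and] at hU hV
      have e1 : U = U \ Q ∪ Q := by
        rw [sdiff_union_of_subset hU.2.1]
      have e2 : V = V \ Q ∪ Q := by
        rw [sdiff_union_of_subset hV.2.1]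
      rw [e1, e2, hUV]
    · intro X hX
      rw [mem_powersetCard] at hX
      obtain ⟨b1, b2⟩ := hX
      have hXQ : Disjoint X Q := by
        rw [Finset.disjoint_left]
        intro x hx hq
        have := b1 hx
        simp at this
        exact this.2 hq
      refine ⟨X ∪ Q, ?_, ?_⟩
      · simp only [mem_filter, mem_univ, true_and]
        refine ⟨?_, subset_union_right, ?_⟩
        · rw [card_union_of_disjoint hXQ, b2]
          omega
        · intro x hx
          simp only [mem_compl, mem_union, not_or]
          refine ⟨fun hX' => ?_, fun hq => ?_⟩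
          · have := b1 hX'
            simp at this
            exact this.1 hx
          · exact (Finset.disjoint_left.1 hd) hx hq
      · rw [union_sdiff_cancel_right hXQ]
  · rw [card_eq_zero, filter_eq_empty_iff]
    intro U _ hU
    obtain ⟨a1, a2, a3⟩ := hU
    apply h
    refine ⟨?_, ?_⟩
    · intro x hx
      simp only [mem_compl]
      intro hq
      have := a3 hx
      simp at this
      exact this (a2 hq)
    · rw [← a1]
      exact card_le_card a2

/-- The combinatorial core: summation over `U` first. -/
theorem core (j u : ℕ) (G : Finset α → Finset α → Finset α → ℤ) :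
    ∑ U ∈ powersetCard u (univ : Finset α), ∑ P ∈ U.powerset, ∑ P' ∈ U.powerset,
      ∑ S ∈ powersetCard j Uᶜ, G P P' S =
    ∑ P : Finset α, ∑ P' : Finset α, if (P ∪ P').card ≤ u then
      ((Fintype.card α - j - (P ∪ P').card).choose (u - (P ∪ P').card) : ℤ) *
        ∑ S ∈ powersetCard j (P ∪ P')ᶜ, G P P' S else 0 := by
  have h1 : ∑ U ∈ powersetCard u (univ : Finset α), ∑ P ∈ U.powerset, ∑ P' ∈ U.powerset,
      ∑ S ∈ powersetCard j Uᶜ, G P P' S =
      ∑ U : Finset α, ∑ P : Finset α, ∑ P' : Finset α, ∑ S : Finset α,
        if (U.card = u ∧ (P ∪ P') ⊆ U ∧ S ⊆ Uᶜ) ∧ S.card = j then G P P' S else 0 := by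
    rw [sum_pc]
    refine Finset.sum_congr rfl fun U _ => ?_
    by_cases hU : U.card = u
    · simp only [subset_univ, hU, and_true, true_and, if_true]
      rw [sum_ps]
      refine Finset.sum_congr rfl fun P _ => ?_
      by_cases hP : P ⊆ U
      · simp only [hP, if_true]
        rw [sum_ps]
        refine Finset.sum_congr rfl fun P' _ => ?_
        by_cases hP' : P' ⊆ U
        · simp only [hP', if_true]
          rw [sum_pc]
          refine Finset.sum_congr rfl fun S _ => ?_
          simp [union_subset hP hP']
        · simp only [hP', if_false]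
          symm
          apply Finset.sum_eq_zero
          intro S _
          rw [if_neg]
          intro h
          exact hP' (subset_trans subset_union_right h.1.1)
      · simp only [hP, if_false]
        symm
        apply Finset.sum_eq_zero
        intro P' _
        apply Finset.sum_eq_zero
        intro S _
        rw [if_neg]
        intro h
        exact hP (subset_trans subset_union_left h.1.1)
    · simp [hU]
  rw [h1, Finset.sum_comm]
  refine Finset.sum_congr rfl fun P _ => ?_
  rw [Finset.sum_comm]
  refine Finset.sum_congr rfl fun P' _ => ?_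
  rw [Finset.sum_comm]
  have h2 : ∀ S : Finset α, ∑ U : Finset α,
      (if (U.card = u ∧ (P ∪ P') ⊆ U ∧ S ⊆ Uᶜ) ∧ S.card = j then G P P' S else 0) =
      if S.card = j then
        ((if S ⊆ (P ∪ P')ᶜ ∧ (P ∪ P').card ≤ u then
          (Fintype.card α - S.card - (P ∪ P').card).choose (u - (P ∪ P').card) else 0 : ℕ) : ℤ) *
          G P P' S else 0 := by
    intro S
    by_cases hS : S.card = j
    · simp only [hS, and_true, if_true]
      rw [← Finset.sum_filter, Finset.sum_const, card_between, nsmul_eq_mul, hS]
    · simp [hS]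
  rw [Finset.sum_congr rfl fun S _ => h2 S]
  split_ifs with h3
  · rw [sum_pc, Finset.mul_sum]
    refine Finset.sum_congr rfl fun S _ => ?_
    by_cases hS : S.card = j
    · by_cases hS' : S ⊆ (P ∪ P')ᶜ
      · rw [if_pos hS, if_pos ⟨hS', h3⟩, if_pos ⟨hS', hS⟩, hS]
      · rw [if_pos hS, if_neg (fun hh => hS' hh.1), if_neg (fun hh => hS' hh.1)]
        simp
    · rw [if_neg hS, if_neg (fun hh => hS hh.2), mul_zero]
  · apply Finset.sum_eq_zero
    intro S _
    rw [if_neg (c := S ⊆ (P ∪ P')ᶜ ∧ (P ∪ P').card ≤ u) (fun hh => h3 hh.2)]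
    simp

theorem app1 (hR : RyserStatement) (hG : GramStatement) : App1Statement := by
  intro α β _ _ _ _ M j u _
  -- the summand
  set c : Finset α → β → ℤ := fun P w => ∑ i ∈ P, M i w with hc
  set G : Finset α → Finset α → Finset α → ℤ := fun P P' S =>
    ∑ W ∈ powersetCard u (univ : Finset β), ∑ T ∈ powersetCard j Wᶜ,
      ((-1 : ℤ) ^ (P.card + P'.card) * ∏ w ∈ W, (c P w * c P' w)) * dsq M S T with hGdef
  have hL : bigN M j u = ∑ U ∈ powersetCard u (univ : Finset α), ∑ P ∈ U.powerset,
      ∑ P' ∈ U.powerset, ∑ S ∈ powersetCard j Uᶜ, G P P' S := by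
    unfold bigN
    refine Finset.sum_congr rfl fun U hU => ?_
    rw [mem_powersetCard] at hU
    have h1 : ∀ W ∈ powersetCard u (univ : Finset β),
        perm M U W ^ 2 * ∑ S ∈ powersetCard j Uᶜ, ∑ T ∈ powersetCard j Wᶜ, dsq M S T =
        ∑ P ∈ U.powerset, ∑ P' ∈ U.powerset, ∑ S ∈ powersetCard j Uᶜ, ∑ T ∈ powersetCard j Wᶜ,
          ((-1 : ℤ) ^ (P.card + P'.card) * ∏ w ∈ W, (c P w * c P' w)) * dsq M S T := by
      intro W hW
      rw [mem_powersetCard] at hW
      have hp : perm M U W ^ 2 = ∑ P ∈ U.powerset, ∑ P' ∈ U.powerset,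
          (-1 : ℤ) ^ (P.card + P'.card) * ∏ w ∈ W, (c P w * c P' w) := by
        rw [sq, hR α β M U W (by rw [hU.2, hW.2]), Finset.sum_mul_sum]
        refine Finset.sum_congr rfl fun P hP => ?_
        refine Finset.sum_congr rfl fun P' hP' => ?_
        rw [mem_powerset] at hP hP'
        have s1 : ((-1 : ℤ)) ^ (U.card - P.card) = (-1) ^ (U.card + P.card) := by
          have hle := card_le_card hP
          have : U.card + P.card = (U.card - P.card) + 2 * P.card := by omega
          rw [this, pow_add, pow_mul]
          simp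
        have s2 : ((-1 : ℤ)) ^ (U.card - P'.card) = (-1) ^ (U.card + P'.card) := by
          have hle := card_le_card hP'
          have : U.card + P'.card = (U.card - P'.card) + 2 * P'.card := by omega
          rw [this, pow_add, pow_mul]
          simp
        have s3 : (-1 : ℤ) ^ (U.card + P.card) * (-1) ^ (U.card + P'.card) =
            (-1) ^ (P.card + P'.card) := by
          rw [← pow_add]
          have : U.card + P.card + (U.card + P'.card) = 2 * U.card + (P.card + P'.card) := by
            ring
          rw [this, pow_add, pow_mul]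
          simp
        rw [s1, s2, Finset.prod_mul_distrib, ← s3]
        ring
      rw [hp, Finset.sum_mul]
      refine Finset.sum_congr rfl fun P _ => ?_
      rw [Finset.sum_mul]
      refine Finset.sum_congr rfl fun P' _ => ?_
      rw [Finset.mul_sum]
      refine Finset.sum_congr rfl fun S _ => ?_
      rw [Finset.mul_sum]
    rw [Finset.sum_congr rfl h1, Finset.sum_comm]
    refine Finset.sum_congr rfl fun P _ => ?_
    rw [Finset.sum_comm]
    refine Finset.sum_congr rfl fun P' _ => ?_
    rw [Finset.sum_comm]
  rw [hL, core]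
  refine Finset.sum_congr rfl fun P _ => ?_
  refine Finset.sum_congr rfl fun P' _ => ?_
  split_ifs with h
  · have hco : (-1 : ℤ) ^ (P.card + P'.card) * coefI M P P' j u =
        ∑ S ∈ powersetCard j (P ∪ P')ᶜ, G P P' S := by
      unfold coefI
      have e1 : ∀ T ∈ powersetCard j (univ : Finset β), ∀ W ∈ powersetCard u Tᶜ,
          (∏ w ∈ W, (∑ i ∈ P, M i w) * (∑ i ∈ P', M i w)) * minor (gram M (P ∪ P')ᶜ) T =
          ∑ S ∈ powersetCard j (P ∪ P')ᶜ, (∏ w ∈ W, (c P w * c P' w)) * dsq M S T := by
        intro T hT W _
        rw [mem_powersetCard] at hT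
        rw [(hG α β M (P ∪ P')ᶜ T).1, hT.2, Finset.mul_sum]
      have e2 : ∑ T ∈ powersetCard j (univ : Finset β), ∑ W ∈ powersetCard u Tᶜ,
          (∏ w ∈ W, (∑ i ∈ P, M i w) * (∑ i ∈ P', M i w)) * minor (gram M (P ∪ P')ᶜ) T =
          ∑ T ∈ powersetCard j (univ : Finset β), ∑ W ∈ powersetCard u Tᶜ,
            ∑ S ∈ powersetCard j (P ∪ P')ᶜ, (∏ w ∈ W, (c P w * c P' w)) * dsq M S T :=
        Finset.sum_congr rfl fun T hT => Finset.sum_congr rfl fun W hW => e1 T hT W hW
      rw [e2]
      have e3 : ∀ f : Finset β → Finset β → ℤ,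
          ∑ T ∈ powersetCard j (univ : Finset β), ∑ W ∈ powersetCard u Tᶜ, f W T =
          ∑ W ∈ powersetCard u (univ : Finset β), ∑ T ∈ powersetCard j Wᶜ, f W T := by
        intro f
        refine Finset.sum_comm' ?_
        intro T W
        simp only [mem_powersetCard, subset_univ, true_and]
        have : W ⊆ Tᶜ ↔ T ⊆ Wᶜ := by
          constructor
          · intro hh x hx
            simp only [mem_compl]
            intro hw
            have := hh hw
            simp at this
            exact this hx
          · intro hh x hx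
            simp only [mem_compl]
            intro hw
            have := hh hw
            simp at this
            exact this hx
        rw [this]
        tauto
      rw [e3 fun W T => ∑ S ∈ powersetCard j (P ∪ P')ᶜ, (∏ w ∈ W, (c P w * c P' w)) * dsq M S T]
      rw [Finset.mul_sum]
      have e4 : ∀ W ∈ powersetCard u (univ : Finset β),
          (-1 : ℤ) ^ (P.card + P'.card) * ∑ T ∈ powersetCard j Wᶜ,
            ∑ S ∈ powersetCard j (P ∪ P')ᶜ, (∏ w ∈ W, (c P w * c P' w)) * dsq M S T =
          ∑ S ∈ powersetCard j (P ∪ P')ᶜ, ∑ T ∈ powersetCard j Wᶜ,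
            ((-1 : ℤ) ^ (P.card + P'.card) * ∏ w ∈ W, (c P w * c P' w)) * dsq M S T := by
        intro W _
        rw [Finset.sum_comm, Finset.mul_sum]
        refine Finset.sum_congr rfl fun S _ => ?_
        rw [Finset.mul_sum]
        refine Finset.sum_congr rfl fun T _ => ?_
        ring
      rw [Finset.sum_congr rfl e4, Finset.sum_comm]
    rw [← hco]
    ring
  · rfl

end Pool.Agent.Lib.MP_b2ebfc_lc.H66
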