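import Pool.Agent.Lib.MP_b2ebfc_lc.Base

/-!
# Module BOUND: the coefficients fit into `8 (n + 2)²` bits
-/

set_option autoImplicit false
set_option linter.unusedSectionVars false

namespace Pool.Agent.Lib.MP_b2ebfc_lc.H66

open Finset

variable {α β : Type} [Fintype α] [DecidableEq α] [Fintype β] [DecidableEq β]

theorem card_equiv_le (S : Finset α) (T : Finset β) :
    (Fintype.card (S ≃ T) : ℤ) ≤ 2 ^ (Fintype.card α * Fintype.card β) := by
  have h1 : Fintype.card (S ≃ T) ≤ Fintype.card (S → T) :=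
    Fintype.card_le_of_injective (fun e : S ≃ T => (e : S → T)) Equiv.coe_fn_injective
  have h2 : Fintype.card (S → T) ≤ 2 ^ (Fintype.card α * Fintype.card β) := by
    rw [Fintype.card_fun, Fintype.card_coe, Fintype.card_coe]
    calc T.card ^ S.card ≤ (2 ^ Fintype.card β) ^ S.card := by
          apply Nat.pow_le_pow_left
          exact (card_le_univ T).trans (Nat.lt_two_pow_self).le
      _ ≤ (2 ^ Fintype.card β) ^ Fintype.card α :=
          Nat.pow_le_pow_right (by positivity) (card_le_univ S)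
      _ = _ := by
          rw [← pow_mul, mul_comm]
  exact_mod_cast h1.trans h2

theorem sum_le_pow {ι : Type*} (s : Finset ι) (f : ι → ℤ) (c e : ℕ)
    (hs : (s.card : ℤ) ≤ 2 ^ c) (hf : ∀ x ∈ s, f x ≤ 2 ^ e) : ∑ x ∈ s, f x ≤ 2 ^ (c + e) := by
  calc ∑ x ∈ s, f x ≤ s.card • (2 : ℤ) ^ e := Finset.sum_le_card_nsmul s f _ hf
    _ = (s.card : ℤ) * 2 ^ e := by rw [nsmul_eq_mul]
    _ ≤ 2 ^ c * 2 ^ e := mul_le_mul_of_nonneg_right hs (by positivity)
    _ = _ := by rw [pow_add]

theorem card_sets_le {γ : Type*} [Fintype γ] [DecidableEq γ] (s : Finset (Finset γ)) :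
    (s.card : ℤ) ≤ 2 ^ Fintype.card γ := by
  have := card_le_univ s
  rw [Fintype.card_finset] at this
  exact_mod_cast this

theorem prod01 (M : α → β → ℤ) (hM : ∀ i l, M i l = 0 ∨ M i l = 1) {S : Finset α} {T : Finset β}
    (σ : S ≃ T) : 0 ≤ ∏ x : S, M x (σ x) ∧ ∏ x : S, M x (σ x) ≤ 1 := by
  constructor
  · refine Finset.prod_nonneg fun x _ => ?_
    rcases hM x (σ x) with h | h <;> simp [h]
  · refine Finset.prod_le_one (fun x _ => ?_) (fun x _ => ?_)
    · rcases hM x (σ x) with h | h <;> simp [h]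
    · rcases hM x (σ x) with h | h <;> simp [h]

theorem dsq_le (M : α → β → ℤ) (hM : ∀ i l, M i l = 0 ∨ M i l = 1) (S : Finset α)
    (T : Finset β) : dsq M S T ≤ 2 ^ (2 * (Fintype.card α * Fintype.card β)) := by
  unfold dsq
  rw [two_mul]
  refine sum_le_pow _ _ _ _ (by rw [card_univ]; exact card_equiv_le S T) fun σ _ => ?_
  rw [← Nat.add_zero (Fintype.card α * Fintype.card β)]
  refine sum_le_pow _ _ _ _ (by rw [card_univ]; exact card_equiv_le S T) fun τ _ => ?_
  obtain ⟨a1, a2⟩ := prod01 M hM σ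
  obtain ⟨b1, b2⟩ := prod01 M hM τ
  have h1 : (∏ x : S, M x (σ x)) * ∏ x : S, M x (τ x) ≤ 1 := mul_le_one₀ a2 b1 b2
  have h0 : 0 ≤ (∏ x : S, M x (σ x)) * ∏ x : S, M x (τ x) := mul_nonneg a1 b1
  rcases Int.units_eq_one_or (Equiv.Perm.sign (σ.trans τ.symm)) with h | h
  · rw [h]
    simpa using h1
  · rw [h]
    simp only [Units.val_neg, Units.val_one, Int.reduceNeg, Int.cast_neg, Int.cast_one, neg_mul,
      one_mul, pow_zero]
    linarith

theorem minor_le (hG : GramStatement) (M : α → β → ℤ) (hM : ∀ i l, M i l = 0 ∨ M i l = 1)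
    (Q : Finset α) (T : Finset β) :
    minor (gram M Q) T ≤
      2 ^ (Fintype.card α + 2 * (Fintype.card α * Fintype.card β)) := by
  rw [(hG α β M Q T).1]
  exact sum_le_pow _ _ _ _ (card_sets_le _) fun S _ => dsq_le M hM S T

theorem perm_nonneg (M : α → β → ℤ) (hM : ∀ i l, M i l = 0 ∨ M i l = 1) (U : Finset α)
    (W : Finset β) : 0 ≤ perm M U W := by
  unfold perm
  exact Finset.sum_nonneg fun f _ => (prod01 M hM f).1

theorem perm_le (M : α → β → ℤ) (hM : ∀ i l, M i l = 0 ∨ M i l = 1) (U : Finset α)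
    (W : Finset β) : perm M U W ≤ 2 ^ (Fintype.card α * Fintype.card β) := by
  unfold perm
  rw [← Nat.add_zero (Fintype.card α * Fintype.card β)]
  refine sum_le_pow _ _ _ _ (by rw [card_univ]; exact card_equiv_le U W) fun f _ => ?_
  simpa using (prod01 M hM f).2

theorem col_bounds (M : α → β → ℤ) (hM : ∀ i l, M i l = 0 ∨ M i l = 1) (P : Finset α) (w : β) :
    0 ≤ ∑ i ∈ P, M i w ∧ ∑ i ∈ P, M i w ≤ 2 ^ Fintype.card α := by
  constructor
  · refine Finset.sum_nonneg fun i _ => ?_
    rcases hM i w with h | h <;> simp [h]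
  · rw [← Nat.add_zero (Fintype.card α)]
    refine sum_le_pow _ _ _ _ ?_ fun i _ => ?_
    · have h1 := (card_le_univ P).trans (Nat.lt_two_pow_self (n := Fintype.card α)).le
      exact_mod_cast h1
    · rcases hM i w with h | h <;> simp [h]

theorem coefI_nonneg (hG : GramStatement) (M : α → β → ℤ)
    (hM : ∀ i l, M i l = 0 ∨ M i l = 1) (P P' : Finset α) (j u : ℕ) :
    0 ≤ coefI M P P' j u := by
  unfold coefI
  refine Finset.sum_nonneg fun T _ => Finset.sum_nonneg fun W _ => ?_
  refine mul_nonneg (Finset.prod_nonneg fun w _ => ?_) (hG α β M _ T).2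
  exact mul_nonneg (col_bounds M hM P w).1 (col_bounds M hM P' w).1

theorem coefII_nonneg (hG : GramStatement) (M : α → β → ℤ) (U : Finset α) (W : Finset β)
    (j : ℕ) : 0 ≤ coefII M U W j := by
  unfold coefII
  exact Finset.sum_nonneg fun T _ => (hG α β M _ T).2

theorem coefI_le (hG : GramStatement) (M : α → β → ℤ)
    (hM : ∀ i l, M i l = 0 ∨ M i l = 1) (P P' : Finset α) (j u : ℕ) :
    coefI M P P' j u ≤ 2 ^ (Fintype.card β + (Fintype.card β +
      (2 * Fintype.card α * Fintype.card β +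
        (Fintype.card α + 2 * (Fintype.card α * Fintype.card β))))) := by
  unfold coefI
  refine sum_le_pow _ _ _ _ (card_sets_le _) fun T _ => ?_
  refine sum_le_pow _ _ _ _ (card_sets_le _) fun W _ => ?_
  rw [pow_add 2 (2 * Fintype.card α * Fintype.card β)]
  refine mul_le_mul ?_ (minor_le hG M hM _ T) (hG α β M _ T).2 (by positivity)
  calc ∏ w ∈ W, (∑ i ∈ P, M i w) * (∑ i ∈ P', M i w)
      ≤ ∏ w ∈ W, ((2 : ℤ) ^ Fintype.card α * 2 ^ Fintype.card α) := by
        refine Finset.prod_le_prod (fun w _ => ?_) (fun w _ => ?_)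
        · exact mul_nonneg (col_bounds M hM P w).1 (col_bounds M hM P' w).1
        · exact mul_le_mul (col_bounds M hM P w).2 (col_bounds M hM P' w).2
            (col_bounds M hM P' w).1 (by positivity)
    _ = ((2 : ℤ) ^ (2 * Fintype.card α)) ^ W.card := by
        rw [Finset.prod_const, ← pow_add, two_mul]
    _ ≤ ((2 : ℤ) ^ (2 * Fintype.card α)) ^ Fintype.card β :=
        pow_le_pow_right₀ (one_le_pow₀ (by norm_num)) (card_le_univ W)
    _ = _ := by rw [← pow_mul]

theorem coefII_le (hG : GramStatement) (M : α → β → ℤ)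
    (hM : ∀ i l, M i l = 0 ∨ M i l = 1) (U : Finset α) (W : Finset β) (j : ℕ) :
    coefII M U W j ≤ 2 ^ (Fintype.card β +
        (Fintype.card α + 2 * (Fintype.card α * Fintype.card β))) := by
  unfold coefII
  exact sum_le_pow _ _ _ _ (card_sets_le _) fun T _ => minor_le hG M hM _ T

theorem bound (hG : GramStatement) : BoundStatement := by
  intro α β _ _ _ _ M hM
  have hb : ((range (Fintype.card β + 1)).card : ℤ) ≤ 2 ^ Fintype.card β := by
    rw [card_range]
    have h1 : Fintype.card β + 1 ≤ 2 ^ Fintype.card β := Nat.lt_two_pow_self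
    exact_mod_cast h1
  refine ⟨fun P P' j u => coefI_nonneg hG M hM P P' j u, fun U W j => coefII_nonneg hG M U W j,
    ?_, ?_⟩
  · refine lt_of_le_of_lt (sum_le_pow _ _ _ _ (card_sets_le _) fun P _ =>
      sum_le_pow _ _ _ _ (card_sets_le _) fun P' _ => sum_le_pow _ _ _ _ hb fun j _ =>
        sum_le_pow _ _ _ _ hb fun u _ => coefI_le hG M hM P P' j u) ?_
    refine pow_lt_pow_right₀ (by norm_num) ?_
    generalize Fintype.card α = a
    generalize Fintype.card β = b
    nlinarith
  · refine lt_of_le_of_lt (sum_le_pow _ _ _ _ (card_sets_le _) fun U _ =>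
      sum_le_pow _ _ _ _ (card_sets_le _) fun W _ => sum_le_pow _ _ _
        (2 * (Fintype.card α * Fintype.card β) + (Fintype.card β +
        (Fintype.card α + 2 * (Fintype.card α * Fintype.card β)))) hb fun j _ => ?_) ?_
    · rw [pow_add 2 (2 * (Fintype.card α * Fintype.card β))]
      refine mul_le_mul ?_ (coefII_le hG M hM U W j) (coefII_nonneg hG M U W j) (by positivity)
      rw [mul_comm 2, pow_mul]
      exact pow_le_pow_left₀ (perm_nonneg M hM U W) (perm_le M hM U W) 2
    · refine pow_lt_pow_right₀ (by norm_num) ?_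
      generalize Fintype.card α = a
      generalize Fintype.card β = b
      nlinarith

end Pool.Agent.Lib.MP_b2ebfc_lc.H66
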