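import Pool.Agent.Lib.MP_b2ebfc_lc.Base

/-!
# Module COUNT: the numbers of iterations
-/

set_option autoImplicit false

namespace Pool.Agent.Lib.MP_b2ebfc_lc.H66

open Finset

theorem binom_sum (a : ℕ) (z : ℝ) :
    ∑ r ∈ range (a + 1), (a.choose r : ℝ) * z ^ r = (1 + z) ^ a := by
  rw [add_comm 1 z, add_pow]
  refine Finset.sum_congr rfl fun r _ => ?_
  simp [mul_comm]

theorem count1 (a b : ℕ) (hab : a ≤ b) :
    (∑ r ∈ range (5 * a / 8 + 1), (a.choose r * 3 ^ r : ℕ) : ℝ) ≤ (1.97 : ℝ) ^ (a + b) := by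
  set m := 5 * a / 8 with hm
  have hm8 : 8 * m ≤ 5 * a := Nat.mul_div_le _ _
  have hma : m ≤ a := by omega
  have h1 : (∑ r ∈ range (m + 1), ((a.choose r * 3 ^ r : ℕ) : ℝ)) ≤
      (9 / 5 : ℝ) ^ m * (8 / 3) ^ a := by
    have h2 : (8 / 3 : ℝ) ^ a = ∑ r ∈ range (a + 1), (a.choose r : ℝ) * (5 / 3) ^ r := by
      rw [binom_sum]
      norm_num
    rw [h2, Finset.mul_sum]
    calc (∑ r ∈ range (m + 1), ((a.choose r * 3 ^ r : ℕ) : ℝ))
        ≤ ∑ r ∈ range (m + 1), (9 / 5 : ℝ) ^ m * ((a.choose r : ℝ) * (5 / 3) ^ r) := by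
          refine Finset.sum_le_sum fun r hr => ?_
          rw [mem_range] at hr
          have h3 : (9 / 5 : ℝ) ^ r ≤ (9 / 5 : ℝ) ^ m :=
            pow_le_pow_right₀ (by norm_num) (by omega)
          have h4 : (3 : ℝ) ^ r = (9 / 5) ^ r * (5 / 3) ^ r := by
            rw [← mul_pow]
            norm_num
          push_cast
          rw [h4]
          have h5 : (0 : ℝ) ≤ (a.choose r : ℝ) * (5 / 3) ^ r := by positivity
          calc (a.choose r : ℝ) * ((9 / 5) ^ r * (5 / 3) ^ r) =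
              (9 / 5) ^ r * ((a.choose r : ℝ) * (5 / 3) ^ r) := by ring
            _ ≤ _ := mul_le_mul_of_nonneg_right h3 h5
      _ ≤ _ := by
          refine Finset.sum_le_sum_of_subset_of_nonneg ?_ ?_
          · intro r hr
            rw [mem_range] at hr ⊢
            omega
          · intro r _ _
            positivity
  refine h1.trans ?_
  have h6 : ((9 / 5 : ℝ) ^ m * (8 / 3) ^ a) ^ 8 ≤ ((1.97 : ℝ) ^ (a + b)) ^ 8 := by
    calc ((9 / 5 : ℝ) ^ m * (8 / 3) ^ a) ^ 8 = (9 / 5 : ℝ) ^ (8 * m) * ((8 / 3) ^ 8) ^ a := by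
          rw [mul_pow, ← pow_mul, ← pow_mul, ← pow_mul, mul_comm m 8, mul_comm a 8]
      _ ≤ (9 / 5 : ℝ) ^ (5 * a) * ((8 / 3) ^ 8) ^ a := by
          refine mul_le_mul_of_nonneg_right (pow_le_pow_right₀ (by norm_num) hm8) (by positivity)
      _ = ((9 / 5 : ℝ) ^ 5 * (8 / 3) ^ 8) ^ a := by
          rw [mul_pow, ← pow_mul (9 / 5 : ℝ)]
      _ ≤ ((1.97 : ℝ) ^ 16) ^ a := by
          refine pow_le_pow_left₀ (by positivity) (by norm_num) a
      _ = (1.97 : ℝ) ^ (16 * a) := by rw [← pow_mul]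
      _ ≤ (1.97 : ℝ) ^ ((a + b) * 8) := pow_le_pow_right₀ (by norm_num) (by omega)
      _ = _ := by rw [pow_mul]
  exact le_of_pow_le_pow_left₀ (by norm_num) (by positivity) h6

theorem count2 (a b : ℕ) (hab : 13 * a < 12 * b) : (4 : ℝ) ^ a ≤ (1.97 : ℝ) ^ (a + b) := by
  have h6 : ((4 : ℝ) ^ a) ^ 12 ≤ ((1.97 : ℝ) ^ (a + b)) ^ 12 := by
    calc ((4 : ℝ) ^ a) ^ 12 = ((4 : ℝ) ^ 12) ^ a := by
          rw [← pow_mul, ← pow_mul, mul_comm]
      _ ≤ ((1.97 : ℝ) ^ 25) ^ a := pow_le_pow_left₀ (by positivity) (by norm_num) a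
      _ = (1.97 : ℝ) ^ (25 * a) := by rw [← pow_mul]
      _ ≤ (1.97 : ℝ) ^ ((a + b) * 12) := pow_le_pow_right₀ (by norm_num) (by omega)
      _ = _ := by rw [pow_mul]
  exact le_of_pow_le_pow_left₀ (by norm_num) (by positivity) h6

theorem count3 (a b : ℕ) (hab : 12 * b ≤ 13 * a) :
    (∑ r ∈ Ioc (5 * a / 8) a, (a.choose r : ℝ)) * 2 ^ b ≤ (1.97 : ℝ) ^ (a + b) := by
  set m := 5 * a / 8 with hm
  have hm8 : 5 * a ≤ 8 * (m + 1) := by omega
  set S := ∑ r ∈ Ioc m a, (a.choose r : ℝ) with hS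
  have hS0 : 0 ≤ S := Finset.sum_nonneg fun r _ => by positivity
  have h1 : S ≤ (3 / 5 : ℝ) ^ (m + 1) * (8 / 3) ^ a := by
    have h2 : (8 / 3 : ℝ) ^ a = ∑ r ∈ range (a + 1), (a.choose r : ℝ) * (5 / 3) ^ r := by
      rw [binom_sum]
      norm_num
    rw [h2, Finset.mul_sum, hS]
    calc (∑ r ∈ Ioc m a, (a.choose r : ℝ))
        ≤ ∑ r ∈ Ioc m a, (3 / 5 : ℝ) ^ (m + 1) * ((a.choose r : ℝ) * (5 / 3) ^ r) := by
          refine Finset.sum_le_sum fun r hr => ?_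
          rw [mem_Ioc] at hr
          have h3 : (3 / 5 : ℝ) ^ r ≤ (3 / 5 : ℝ) ^ (m + 1) :=
            pow_le_pow_of_le_one (by norm_num) (by norm_num) (by omega)
          have h4 : (1 : ℝ) = (3 / 5) ^ r * (5 / 3) ^ r := by
            rw [← mul_pow]
            norm_num
          have h5 : (0 : ℝ) ≤ (a.choose r : ℝ) * (5 / 3) ^ r := by positivity
          calc (a.choose r : ℝ) = (a.choose r : ℝ) * ((3 / 5) ^ r * (5 / 3) ^ r) := by
                rw [← h4, mul_one]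
            _ = (3 / 5) ^ r * ((a.choose r : ℝ) * (5 / 3) ^ r) := by ring
            _ ≤ _ := mul_le_mul_of_nonneg_right h3 h5
      _ ≤ _ := by
          refine Finset.sum_le_sum_of_subset_of_nonneg ?_ ?_
          · intro r hr
            rw [mem_Ioc] at hr
            rw [mem_range]
            omega
          · intro r _ _
            positivity
  have h8 : S ^ 8 ≤ ((3 / 5 : ℝ) ^ 5 * (8 / 3) ^ 8) ^ a := by
    calc S ^ 8 ≤ ((3 / 5 : ℝ) ^ (m + 1) * (8 / 3) ^ a) ^ 8 := pow_le_pow_left₀ hS0 h1 8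
      _ = (3 / 5 : ℝ) ^ (8 * (m + 1)) * ((8 / 3) ^ 8) ^ a := by
          rw [mul_pow, ← pow_mul, ← pow_mul, ← pow_mul, mul_comm (m + 1) 8, mul_comm a 8]
      _ ≤ (3 / 5 : ℝ) ^ (5 * a) * ((8 / 3) ^ 8) ^ a := by
          refine mul_le_mul_of_nonneg_right
            (pow_le_pow_of_le_one (by norm_num) (by norm_num) hm8) (by positivity)
      _ = _ := by
          rw [mul_pow, ← pow_mul (3 / 5 : ℝ)]
  have h9 : (2 : ℝ) ^ b * 1 = (1.97 : ℝ) ^ b * (2 / 1.97) ^ b := by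
    rw [← mul_pow]
    norm_num
  have h10 : ((2 / 1.97 : ℝ) ^ b) ^ 12 ≤ ((2 / 1.97 : ℝ) ^ 13) ^ a := by
    rw [← pow_mul, ← pow_mul]
    exact pow_le_pow_right₀ (by norm_num) (by omega)
  have h6 : (S * 2 ^ b) ^ 96 ≤ ((1.97 : ℝ) ^ (a + b)) ^ 96 := by
    calc (S * 2 ^ b) ^ 96 = (S ^ 8) ^ 12 * ((2 : ℝ) ^ b * 1) ^ 96 := by
          rw [mul_pow, ← pow_mul S 8 12, mul_one]
      _ = (S ^ 8) ^ 12 * (((2 / 1.97 : ℝ) ^ b) ^ 12) ^ 8 * ((1.97 : ℝ) ^ b) ^ 96 := by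
          rw [h9, mul_pow, ← pow_mul ((2 / 1.97 : ℝ) ^ b) 12 8]
          ring
      _ ≤ (((3 / 5 : ℝ) ^ 5 * (8 / 3) ^ 8) ^ a) ^ 12 * (((2 / 1.97 : ℝ) ^ 13) ^ a) ^ 8 *
          ((1.97 : ℝ) ^ b) ^ 96 := by
          refine mul_le_mul_of_nonneg_right ?_ (by positivity)
          refine mul_le_mul ?_ ?_ (by positivity) (by positivity)
          · exact pow_le_pow_left₀ (by positivity) h8 12
          · exact pow_le_pow_left₀ (by positivity) h10 8
      _ = ((((3 / 5 : ℝ) ^ 5 * (8 / 3) ^ 8)) ^ 12 * (((2 / 1.97 : ℝ) ^ 13)) ^ 8) ^ a *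
          ((1.97 : ℝ) ^ b) ^ 96 := by
          rw [mul_pow (_ ^ 12), ← pow_mul _ 12 a, ← pow_mul _ 8 a, ← pow_mul _ a 12,
            ← pow_mul _ a 8, mul_comm a 12, mul_comm a 8]
      _ ≤ ((1.97 : ℝ) ^ 96) ^ a * ((1.97 : ℝ) ^ b) ^ 96 := by
          refine mul_le_mul_of_nonneg_right ?_ (by positivity)
          exact pow_le_pow_left₀ (by positivity) (by norm_num) a
      _ = _ := by
          rw [← pow_mul, ← pow_mul, ← pow_mul, ← pow_add]
          congr 1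
          ring
  exact le_of_pow_le_pow_left₀ (by norm_num) (by positivity) h6

theorem count : CountStatement := ⟨count1, count2, count3⟩

end Pool.Agent.Lib.MP_b2ebfc_lc.H66
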