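import Pool.Agent.Lib.MP_b2ebfc_lc.Base

/-!
# Modules DIGITS and ODD
-/

set_option autoImplicit false

namespace Pool.Agent.Lib.MP_b2ebfc_lc.H66

open Finset

theorem digits_bound (z : ℤ) (m : ℕ) (c : ℕ → ℤ) (h0 : ∀ i, 0 ≤ c i) (h1 : ∀ i, c i < z) :
    0 ≤ ∑ h ∈ range m, c h * z ^ h ∧ ∑ h ∈ range m, c h * z ^ h < z ^ m := by
  have hz : 0 < z := lt_of_le_of_lt (h0 0) (h1 0)
  refine ⟨Finset.sum_nonneg fun i _ => mul_nonneg (h0 i) (by positivity), ?_⟩
  induction m with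
  | zero => simp
  | succ m ih =>
    rw [Finset.sum_range_succ, pow_succ]
    have h2 : c m ≤ z - 1 := by
      have := h1 m
      omega
    have h3 : (0 : ℤ) < z ^ m := by positivity
    nlinarith

theorem digits : DigitsStatement := by
  intro z m c h0 h1
  have hz : 0 < z := lt_of_le_of_lt (h0 0) (h1 0)
  refine ⟨?_, digits_bound z m c h0 h1⟩
  intro i hi
  obtain ⟨t, ht⟩ : ∃ t, m = (i + 1) + t := ⟨m - (i + 1), by omega⟩
  subst ht
  rw [Finset.sum_range_add, Finset.sum_range_succ]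
  have h2 : ∑ x ∈ range t, c (i + 1 + x) * z ^ (i + 1 + x) =
      z ^ i * (z * ∑ x ∈ range t, c (i + 1 + x) * z ^ x) := by
    rw [Finset.mul_sum, Finset.mul_sum]
    refine Finset.sum_congr rfl fun x _ => ?_
    rw [pow_add, pow_succ]
    ring
  rw [h2]
  obtain ⟨a0, a1⟩ := digits_bound z i c h0 h1
  have h3 : (∑ x ∈ range i, c x * z ^ x) + c i * z ^ i +
      z ^ i * (z * ∑ x ∈ range t, c (i + 1 + x) * z ^ x) =
      (∑ x ∈ range i, c x * z ^ x) +
        z ^ i * (c i + z * ∑ x ∈ range t, c (i + 1 + x) * z ^ x) := by ring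
  rw [h3, Int.add_mul_ediv_left _ _ (by positivity), Int.ediv_eq_zero_of_lt a0 a1, zero_add,
    Int.add_mul_emod_self_left, Int.emod_eq_of_lt (h0 i) (h1 i)]

theorem odd : OddStatement := by
  intro V _ G hG l hl hodd
  rw [SimpleGraph.copyCount_eq_zero]
  intro hc
  obtain ⟨f⟩ := hc
  have h1 : (SimpleGraph.cycleGraph l).Colorable 2 := hG.of_hom f.toHom
  have h2 := h1.chromaticNumber_le
  rw [SimpleGraph.chromaticNumber_cycleGraph_of_odd l (by omega) hodd] at h2
  exact absurd h2 (by decide)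

end Pool.Agent.Lib.MP_b2ebfc_lc.H66
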