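import Pool.Agent.Lib.MP_b2ebfc_lc.Base

/-!
# Module GRAM: Cauchy-Binet for the principal minors of the Gram matrix
-/

set_option autoImplicit false
set_option linter.unusedSectionVars false

namespace Pool.Agent.Lib.MP_b2ebfc_lc.H66

open Finset

variable {α β : Type} [Fintype α] [DecidableEq α] [Fintype β] [DecidableEq β]

/-- The product of the diagonal term and the determinant of the rows `f x`. -/
noncomputable def term (M : α → β → ℤ) (T : Finset β) (f : T → α) : ℤ :=
  (∏ x : T, M (f x) x) * ∑ π : Equiv.Perm T, ((Equiv.Perm.sign π : ℤ)) * ∏ x : T, M (f x) (π x)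

theorem term_of_not_injective (M : α → β → ℤ) (T : Finset β) (f : T → α)
    (hf : ¬ Function.Injective f) : term M T f = 0 := by
  have h1 : ∑ π : Equiv.Perm T, ((Equiv.Perm.sign π : ℤ)) * ∏ x : T, M (f x) (π x) =
      (Matrix.of fun a b : T => M (f b) a).det := by
    rw [Matrix.det_apply']
    rfl
  unfold Function.Injective at hf
  push Not at hf
  obtain ⟨x, y, hxy, hne⟩ := hf
  unfold term
  rw [h1, Matrix.det_zero_of_column_eq hne, mul_zero]
  intro k
  simp [hxy]

theorem dsq_eq (M : α → β → ℤ) (S : Finset α) (T : Finset β) :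
    dsq M S T = ∑ σ : (S ≃ T), term M T (fun x => (σ.symm x : α)) := by
  unfold dsq term
  refine Finset.sum_congr rfl fun σ _ => ?_
  rw [Finset.mul_sum]
  refine Fintype.sum_equiv
    ⟨fun τ => (σ.symm.trans τ : Equiv.Perm T), fun π => σ.trans π, fun τ => ?_, fun π => ?_⟩
    _ _ ?_
  · ext s; simp
  · ext s; simp
  · intro τ
    have e1 : Equiv.Perm.sign (σ.trans τ.symm) = Equiv.Perm.sign (σ.symm.trans τ) := by
      have h1 := Equiv.Perm.sign_symm_trans_trans (σ.trans τ.symm) σ
      have h2 : ((σ.symm.trans (σ.trans τ.symm)).trans σ : Equiv.Perm T) =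
          (σ.symm.trans τ : Equiv.Perm T)⁻¹ := by
        ext s
        simp [Equiv.Perm.inv_def]
      rw [h2, Equiv.Perm.sign_inv] at h1
      exact h1.symm
    have e2 : ∏ x : S, M x (σ x) = ∏ x : T, M (σ.symm x) x := by
      rw [← Equiv.prod_comp σ]
      simp
    have e3 : ∏ x : S, M x (τ x) = ∏ x : T, M (σ.symm x) ((σ.symm.trans τ) x) := by
      rw [← Equiv.prod_comp σ]
      simp
    simp only [Equiv.coe_fn_mk]
    rw [e1, e2, e3]
    push_cast
    ring

theorem dsq_nonneg (M : α → β → ℤ) (S : Finset α) (T : Finset β) : 0 ≤ dsq M S T := by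
  by_cases h : Nonempty (S ≃ T)
  · obtain ⟨e⟩ := h
    have h1 : dsq M S T =
        (∑ σ : (S ≃ T), ((Equiv.Perm.sign (e.symm.trans σ : Equiv.Perm T) : ℤ)) *
          ∏ x : S, M x (σ x)) ^ 2 := by
      rw [sq, Finset.sum_mul_sum]
      unfold dsq
      refine Finset.sum_congr rfl fun σ _ => ?_
      refine Finset.sum_congr rfl fun τ _ => ?_
      have e1 : Equiv.Perm.sign (σ.trans τ.symm) =
          Equiv.Perm.sign (e.symm.trans σ : Equiv.Perm T) *
            Equiv.Perm.sign (e.symm.trans τ : Equiv.Perm T) := by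
        have h1 := Equiv.Perm.sign_symm_trans_trans (σ.trans τ.symm) e
        have h2 : ((e.symm.trans (σ.trans τ.symm)).trans e : Equiv.Perm T) =
            (e.symm.trans τ : Equiv.Perm T)⁻¹ * (e.symm.trans σ : Equiv.Perm T) := by
          ext s
          simp [Equiv.Perm.inv_def]
        rw [h2, Equiv.Perm.sign_mul, Equiv.Perm.sign_inv] at h1
        rw [← h1, mul_comm]
      rw [e1]
      push_cast
      ring
    rw [h1]
    positivity
  · have : IsEmpty (S ≃ T) := not_nonempty_iff.1 h
    unfold dsq
    simp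

theorem gram_det (M : α → β → ℤ) (Q : Finset α) (T : Finset β) :
    minor (gram M Q) T = ∑ f ∈ Fintype.piFinset (fun _ : T => Q), term M T f := by
  unfold minor gram
  rw [Matrix.det_apply']
  simp only [Matrix.of_apply]
  have h1 : ∀ π : Equiv.Perm T, ∏ x : T, ∑ i ∈ Q, M i (π x) * M i x =
      ∑ f ∈ Fintype.piFinset (fun _ : T => Q), ∏ x : T, M (f x) (π x) * M (f x) x := by
    intro π
    rw [Finset.prod_univ_sum]
  rw [Finset.sum_congr rfl fun π _ => by rw [h1 π, Finset.mul_sum]]
  rw [Finset.sum_comm]
  refine Finset.sum_congr rfl fun f _ => ?_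
  unfold term
  rw [Finset.mul_sum]
  refine Finset.sum_congr rfl fun π _ => ?_
  rw [Finset.prod_mul_distrib]
  simp only [Int.cast_id]
  ring

theorem fiber_sum (M : α → β → ℤ) (Q : Finset α) (T : Finset β) (S : Finset α)
    (hS : S ∈ powersetCard T.card Q) :
    ∑ f ∈ ((Fintype.piFinset (fun _ : T => Q)).filter (fun f => Function.Injective f)).filter
      (fun f => univ.image f = S), term M T f =
    ∑ σ : (S ≃ T), term M T (fun x => (σ.symm x : α)) := by
  symm
  rw [mem_powersetCard] at hS
  refine Finset.sum_bij (fun (σ : S ≃ T) _ => fun x : T => (σ.symm x : α)) ?_ ?_ ?_ ?_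
  · intro σ _
    simp only [mem_filter, Fintype.mem_piFinset]
    refine ⟨⟨fun x => hS.1 (σ.symm x).2, ?_⟩, ?_⟩
    · intro x y hxy
      exact σ.symm.injective (Subtype.ext hxy)
    · ext a
      simp only [mem_image, mem_univ, true_and]
      constructor
      · rintro ⟨x, rfl⟩
        exact (σ.symm x).2
      · intro ha
        exact ⟨σ ⟨a, ha⟩, by simp⟩
  · intro σ _ τ _ h
    have : σ.symm = τ.symm := by
      ext x
      exact congrFun h x
    have h2 := congrArg Equiv.symm this
    simpa using h2
  · intro f hf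
    simp only [mem_filter, Fintype.mem_piFinset] at hf
    obtain ⟨⟨_, hinj⟩, him⟩ := hf
    have hmem : ∀ x : T, f x ∈ S := by
      intro x
      rw [← him]
      exact mem_image_of_mem _ (mem_univ _)
    have hb : Function.Bijective (fun x : T => (⟨f x, hmem x⟩ : S)) := by
      constructor
      · intro x y hxy
        exact hinj (congrArg Subtype.val hxy)
      · rintro ⟨a, ha⟩
        rw [← him] at ha
        simp only [mem_image, mem_univ, true_and] at ha
        obtain ⟨x, hx⟩ := ha
        exact ⟨x, Subtype.ext hx⟩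
    refine ⟨(Equiv.ofBijective _ hb).symm, mem_univ _, ?_⟩
    funext x
    simp
  · intro σ _
    rfl

theorem gram_sum (M : α → β → ℤ) (Q : Finset α) (T : Finset β) :
    minor (gram M Q) T = ∑ S ∈ powersetCard T.card Q, dsq M S T := by
  rw [gram_det]
  have h1 : ∑ f ∈ Fintype.piFinset (fun _ : T => Q), term M T f =
      ∑ f ∈ (Fintype.piFinset (fun _ : T => Q)).filter (fun f => Function.Injective f),
        term M T f := by
    rw [Finset.sum_filter]
    refine Finset.sum_congr rfl fun f _ => ?_
    split_ifs with h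
    · rfl
    · exact term_of_not_injective M T f h
  rw [h1]
  rw [← Finset.sum_fiberwise_of_maps_to (t := powersetCard T.card Q)
    (g := fun f : T → α => univ.image f)]
  · refine Finset.sum_congr rfl fun S hS => ?_
    rw [fiber_sum M Q T S hS, dsq_eq]
  · intro f hf
    simp only [mem_filter, Fintype.mem_piFinset] at hf
    rw [mem_powersetCard]
    constructor
    · intro a ha
      simp only [mem_image, mem_univ, true_and] at ha
      obtain ⟨x, rfl⟩ := ha
      exact hf.1 x
    · rw [card_image_of_injective _ hf.2, card_univ, Fintype.card_coe]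

theorem gram : GramStatement := by
  intro α β _ _ _ _ M Q T
  refine ⟨gram_sum M Q T, ?_⟩
  rw [gram_sum]
  exact Finset.sum_nonneg fun S _ => dsq_nonneg M S T

end Pool.Agent.Lib.MP_b2ebfc_lc.H66
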