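import Pool.Agent.Lib.MP_b2ebfc_lc.Base

/-!
# Module MASK: sums over masks
-/

set_option autoImplicit false

namespace Pool.Agent.Lib.MP_b2ebfc_lc.H66

open Finset

theorem mem_maskSet (a Z : ℕ) (i : Fin a) : i ∈ maskSet a Z ↔ Z.testBit i = true := by
  unfold maskSet
  rw [mem_filter, Nat.testBit_eq_decide_div_mod_eq]
  simp

theorem maskSet_injOn (a Z Z' : ℕ) (hZ : Z < 2 ^ a) (hZ' : Z' < 2 ^ a)
    (h : maskSet a Z = maskSet a Z') : Z = Z' := by
  apply Nat.eq_of_testBit_eq
  intro i
  by_cases hi : i < a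
  · have h1 := mem_maskSet a Z ⟨i, hi⟩
    have h2 := mem_maskSet a Z' ⟨i, hi⟩
    rw [h] at h1
    have h3 := h1.symm.trans h2
    simp only at h3
    exact Bool.eq_iff_iff.2 h3
  · rw [Nat.testBit_lt_two_pow (lt_of_lt_of_le hZ (Nat.pow_le_pow_right (by norm_num) (by omega))),
      Nat.testBit_lt_two_pow (lt_of_lt_of_le hZ' (Nat.pow_le_pow_right (by norm_num) (by omega)))]

theorem mask1 (a : ℕ) (g : Finset (Fin a) → ℤ) :
    ∑ Z ∈ range (2 ^ a), g (maskSet a Z) = ∑ Z : Finset (Fin a), g Z := by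
  rw [Finset.sum_range]
  have hb : Function.Bijective (fun Z : Fin (2 ^ a) => maskSet a Z) := by
    rw [Fintype.bijective_iff_injective_and_card]
    refine ⟨?_, by simp⟩
    intro Z Z' h
    exact Fin.ext (maskSet_injOn a Z Z' Z.2 Z'.2 h)
  exact Fintype.sum_bijective _ hb _ _ fun _ => rfl

theorem mask3 (a Z : ℕ) (i : Fin a) (hZ : Z < 2 ^ a) (hi : i ∈ maskSet a Z) :
    2 ^ (i : ℕ) ≤ Z ∧ Z - 2 ^ (i : ℕ) < 2 ^ a ∧
      maskSet a (Z - 2 ^ (i : ℕ)) = (maskSet a Z).erase i := by
  rw [mem_maskSet] at hi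
  have h1 : 2 ^ (i : ℕ) ≤ Z := by
    by_contra h
    rw [Nat.testBit_lt_two_pow (not_le.1 h)] at hi
    simp at hi
  refine ⟨h1, lt_of_le_of_lt (Nat.sub_le _ _) hZ, ?_⟩
  obtain ⟨x, hx⟩ := Nat.exists_eq_add_of_le h1
  have hx' : Z - 2 ^ (i : ℕ) = x := by omega
  rw [hx']
  subst hx
  ext j
  rw [mem_erase, mem_maskSet, mem_maskSet]
  rw [Nat.testBit_two_pow_add_eq] at hi
  have hxi : x.testBit i = false := by simpa using hi
  rcases lt_trichotomy (j : ℕ) (i : ℕ) with h | h | h
  · rw [Nat.testBit_two_pow_add_gt h]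
    have : j ≠ i := by
      intro hh
      rw [hh] at h
      exact lt_irrefl _ h
    simp [this]
  · have : j = i := Fin.ext h
    subst this
    simp [hxi]
  · have hne : j ≠ i := by
      intro hh
      rw [hh] at h
      exact lt_irrefl _ h
    have h2 : (2 ^ (i : ℕ) + x).testBit j = x.testBit j := by
      rw [Nat.testBit_eq_decide_div_mod_eq, Nat.testBit_eq_decide_div_mod_eq]
      rw [Nat.testBit_eq_decide_div_mod_eq] at hxi
      obtain ⟨t, ht⟩ : ∃ t, (j : ℕ) = i + (1 + t) := ⟨j - i - 1, by omega⟩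
      rw [ht, pow_add, pow_add, ← Nat.div_div_eq_div_mul, ← Nat.div_div_eq_div_mul,
        ← Nat.div_div_eq_div_mul, ← Nat.div_div_eq_div_mul]
      have h3 : (2 ^ (i : ℕ) + x) / 2 ^ (i : ℕ) = x / 2 ^ (i : ℕ) + 1 := by
        rw [Nat.add_div_left _ (by positivity)]
      rw [h3]
      have h4 : (x / 2 ^ (i : ℕ)) % 2 = 0 := by
        have := hxi
        simp only [decide_eq_false_iff_not] at this
        omega
      have h5 : (x / 2 ^ (i : ℕ) + 1) / 2 ^ 1 = (x / 2 ^ (i : ℕ)) / 2 ^ 1 := by omega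
      rw [h5]
    rw [h2]
    simp [hne]

theorem mask4 (a Z : ℕ) (i : Fin a) :
    maskSet a (Z % 2 ^ (i : ℕ)) = (maskSet a Z).filter fun h => h < i := by
  ext j
  rw [mem_filter, mem_maskSet, mem_maskSet, Nat.testBit_mod_two_pow]
  simp only [Bool.and_eq_true, decide_eq_true_eq]
  rw [Fin.lt_def]
  tauto

section Tern

variable (a Z : ℕ)

/-- The increasing enumeration of the mask. -/
noncomputable def enum : Fin (maskSet a Z).card ≃o (maskSet a Z) :=
  (maskSet a Z).orderIsoOfFin rfl

theorem rank_enum (j : Fin (maskSet a Z).card) :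
    ((maskSet a Z).filter (fun h => h < (enum a Z j : Fin a))).card = j := by
  have h1 : (maskSet a Z).filter (fun h => h < (enum a Z j : Fin a)) =
      (Finset.Iio j).image (fun t => (enum a Z t : Fin a)) := by
    ext i
    rw [mem_filter, mem_image]
    constructor
    · rintro ⟨hi, hlt⟩
      refine ⟨(enum a Z).symm ⟨i, hi⟩, ?_, by simp⟩
      rw [mem_Iio, ← (enum a Z).lt_iff_lt, OrderIso.apply_symm_apply]
      exact hlt
    · rintro ⟨t, ht, rfl⟩
      refine ⟨(enum a Z t).2, ?_⟩
      rw [mem_Iio] at ht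
      exact (enum a Z).lt_iff_lt.2 ht
  rw [h1, card_image_of_injective, Fin.card_Iio]
  intro s t hst
  exact (enum a Z).injective (Subtype.ext hst)

theorem digit (d : Fin (maskSet a Z).card → Fin 3) (j : Fin (maskSet a Z).card) :
    ((finFunctionFinEquiv d : Fin (3 ^ (maskSet a Z).card)) : ℕ) / 3 ^ (j : ℕ) % 3 = d j := by
  have h := congrFun (finFunctionFinEquiv.symm_apply_apply d) j
  have h2 := congrArg Fin.val h
  rw [← h2]
  rfl

theorem mem_fst (d : Fin (maskSet a Z).card → Fin 3) (j : Fin (maskSet a Z).card) :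
    (enum a Z j : Fin a) ∈ ternFst a Z (finFunctionFinEquiv d : Fin (3 ^ (maskSet a Z).card)) ↔
      d j ≠ 1 := by
  unfold ternFst
  rw [mem_filter, rank_enum, digit]
  constructor
  · rintro ⟨_, h⟩ h2
    rw [h2] at h
    exact h rfl
  · intro h
    refine ⟨(enum a Z j).2, fun h2 => h (Fin.ext h2)⟩

theorem mem_snd (d : Fin (maskSet a Z).card → Fin 3) (j : Fin (maskSet a Z).card) :
    (enum a Z j : Fin a) ∈ ternSnd a Z (finFunctionFinEquiv d : Fin (3 ^ (maskSet a Z).card)) ↔
      d j ≠ 0 := by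
  unfold ternSnd
  rw [mem_filter, rank_enum, digit]
  constructor
  · rintro ⟨_, h⟩ h2
    rw [h2] at h
    exact h rfl
  · intro h
    refine ⟨(enum a Z j).2, fun h2 => h (Fin.ext h2)⟩

theorem exists_enum (i : Fin a) (hi : i ∈ maskSet a Z) : ∃ j, (enum a Z j : Fin a) = i :=
  ⟨(enum a Z).symm ⟨i, hi⟩, by simp⟩

theorem mask2 (g : Finset (Fin a) → Finset (Fin a) → ℤ) :
    ∑ c ∈ range (3 ^ (maskSet a Z).card), g (ternFst a Z c) (ternSnd a Z c) =
      ∑ P : Finset (Fin a), ∑ P' : Finset (Fin a),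
        if P ∪ P' = maskSet a Z then g P P' else 0 := by
  rw [Finset.sum_range, ← Equiv.sum_comp finFunctionFinEquiv]
  rw [← Fintype.sum_prod_type' (fun P P' : Finset (Fin a) =>
    if P ∪ P' = maskSet a Z then g P P' else 0), ← Finset.sum_filter]
  refine Finset.sum_bij' (fun d _ =>
      (ternFst a Z (finFunctionFinEquiv d : Fin (3 ^ (maskSet a Z).card)),
        ternSnd a Z (finFunctionFinEquiv d : Fin (3 ^ (maskSet a Z).card))))
    (fun p _ j => if (enum a Z j : Fin a) ∈ p.1 then
      (if (enum a Z j : Fin a) ∈ p.2 then 2 else 0) else 1) ?_ ?_ ?_ ?_ ?_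
  · intro d _
    rw [mem_filter]
    refine ⟨mem_univ _, ?_⟩
    ext i
    rw [mem_union]
    constructor
    · rintro (h | h)
      · unfold ternFst at h
        exact (mem_filter.1 h).1
      · unfold ternSnd at h
        exact (mem_filter.1 h).1
    · intro h
      obtain ⟨j, rfl⟩ := exists_enum a Z i h
      rw [mem_fst, mem_snd]
      by_contra hh
      push Not at hh
      rw [hh.1] at hh
      exact absurd hh.2 (by decide)
  · intro p _
    exact mem_univ _
  · intro d _
    funext j
    simp only [mem_fst, mem_snd]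
    generalize d j = x
    revert x
    decide
  · intro p hp
    rw [mem_filter] at hp
    have hp2 := hp.2
    refine Prod.ext ?_ ?_
    · ext i
      by_cases hi : i ∈ maskSet a Z
      · obtain ⟨j, rfl⟩ := exists_enum a Z i hi
        simp only [mem_fst]
        by_cases h1 : (enum a Z j : Fin a) ∈ p.1
        · by_cases h2 : (enum a Z j : Fin a) ∈ p.2
          · simp [h1, h2]
          · simp [h1, h2]
        · simp [h1]
      · constructor
        · intro h
          exact absurd (mem_filter.1 h).1 hi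
        · intro h
          exact absurd (hp2 ▸ mem_union_left _ h) hi
    · ext i
      by_cases hi : i ∈ maskSet a Z
      · obtain ⟨j, rfl⟩ := exists_enum a Z i hi
        simp only [mem_snd]
        by_cases h1 : (enum a Z j : Fin a) ∈ p.1
        · by_cases h2 : (enum a Z j : Fin a) ∈ p.2
          · simp [h1, h2]
          · simp [h1, h2]
        · have h2 : (enum a Z j : Fin a) ∈ p.2 := by
            have h3 : (enum a Z j : Fin a) ∈ p.1 ∪ p.2 := hp2.symm ▸ hi
            rw [mem_union] at h3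
            tauto
          simp [h1, h2]
      · constructor
        · intro h
          exact absurd (mem_filter.1 h).1 hi
        · intro h
          exact absurd (hp2 ▸ mem_union_right _ h) hi
  · intro d _
    rfl

end Tern

theorem mask : MaskStatement := fun a =>
  ⟨mask1 a, fun Z g => mask2 a Z g, mask3 a, mask4 a⟩

end Pool.Agent.Lib.MP_b2ebfc_lc.H66
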