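import Pool.Agent.Lib.MP_b2ebfc_lc.H35.DetP

/-!
# Module PERMP: correctness of `permP`
-/

set_option autoImplicit false

namespace Pool.Agent.Lib.MP_b2ebfc_lc.H66

open Finset Pool.Agent.Lib.MP_b2ebfc_lc Pool.Agent.Lib.MP_b2ebfc_lc.H35

/-- The body of the loop of `permP`. -/
def bodyP : Prog := .ite (.const 0) (bitE (.reg 20) (.reg 29))
    (seqs [tab 30 11 17 permE, tab 30 11 16 (.arr 17 (.reg 30))]) .skip

/-- The rows of `U` with index less than `k`. -/
def rowsLt (a U k : ℕ) : Finset (Fin a) := (maskSet a U).filter fun h => (h : ℕ) < k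

/-- The invariant of the loop. -/
structure Inv (w n a b : ℕ) (M : Fin a → Fin b → ℤ) (s : St) (U k : ℕ) (t : St) : Prop where
  r : ∀ j ≠ 29, t.r j = s.r j
  m3 : t.m 3 = s.m 3
  m4 : t.m 4 = s.m 4
  m16 : ∀ W : ℕ, W < 2 ^ b → ((t.m 16 W : ℤ) : ZMod (2 ^ w)) =
    ((perm M (rowsLt a U k) (maskSet b W) : ℤ) : ZMod (2 ^ w))

theorem rowsLt_zero (a U : ℕ) : rowsLt a U 0 = ∅ := by
  simp [rowsLt]

theorem rowsLt_top (a U : ℕ) : rowsLt a U a = maskSet a U := by
  unfold rowsLt
  rw [Finset.filter_true_of_mem]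
  intro h _
  exact h.2

theorem rowsLt_succ_of_mem (a U : ℕ) (k : Fin a) (hk : k ∈ maskSet a U) :
    rowsLt a U (k + 1) = insert k (rowsLt a U k) := by
  ext h
  simp only [rowsLt, mem_filter, mem_insert]
  constructor
  · rintro ⟨h1, h2⟩
    by_cases h3 : h = k
    · exact Or.inl h3
    · right
      refine ⟨h1, ?_⟩
      have : (h : ℕ) ≠ k := fun h4 => h3 (Fin.ext h4)
      omega
  · rintro (h1 | h1)
    · subst h1
      exact ⟨hk, by omega⟩
    · exact ⟨h1.1, by omega⟩

theorem rowsLt_succ_of_not_mem (a U : ℕ) (k : Fin a) (hk : k ∉ maskSet a U) :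
    rowsLt a U (k + 1) = rowsLt a U k := by
  ext h
  simp only [rowsLt, mem_filter]
  constructor
  · rintro ⟨h1, h2⟩
    refine ⟨h1, ?_⟩
    have h3 : h ≠ k := by
      rintro rfl
      exact hk h1
    have : (h : ℕ) ≠ k := fun h4 => h3 (Fin.ext h4)
    omega
  · rintro ⟨h1, h2⟩
    exact ⟨h1, by omega⟩

theorem not_mem_rowsLt (a U : ℕ) (k : Fin a) : k ∉ rowsLt a U k := by
  simp [rowsLt]

theorem bit_pos (Z : ℕ) {a : ℕ} (h : Fin a) :
    ((Z : ℤ) / 2 ^ (h : ℕ)) % 2 = if h ∈ maskSet a Z then 1 else 0 := by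
  have h1 := one_sub_bit Z h
  split_ifs at h1 ⊢ <;> linarith

theorem eval_permE (hP : PermRecStatement) (hMask : MaskStatement) (w n a b : ℕ)
    (M : Fin a → Fin b → ℤ) (s t : St) (U : ℕ)
    (hctx : Ctx n a b M s) (k : Fin a) (hI : Inv w n a b M s U k t)
    (W : ℕ) (hW : W < 2 ^ b) :
    ((permE.eval ((t.setR 29 (k : ℕ)).setR 30 W) : ℤ) : ZMod (2 ^ w)) =
      ((perm M (insert k (rowsLt a U k)) (maskSet b W) : ℤ) : ZMod (2 ^ w)) := by
  have hr4 : t.r 4 = b := by rw [hI.r 4 (by norm_num)]; exact hctx.hb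
  have hP2 : ∀ x : Fin b, t.m 4 ((x : ℕ) : ℤ) = 2 ^ (x : ℕ) := fun x => by
    rw [hI.m4]
    exact hctx.hP2 x (by have := x.2; have := hctx.hab; omega)
  have hM : ∀ x : Fin b, t.m 3 (((k : ℕ) : ℤ) * b + ((x : ℕ) : ℤ)) = M k x := fun x => by
    rw [hI.m3]
    exact hctx.hM k x
  have h1 : permE.eval ((t.setR 29 (k : ℕ)).setR 30 W) =
      ∑ x : Fin b, (((W : ℤ) / 2 ^ (x : ℕ)) % 2) * (M k x * t.m 16 ((W : ℤ) - 2 ^ (x : ℕ))) := by
    simp only [permE, Expr.eval, bitE, St.setR_r, St.setR_m]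
    norm_num only [if_true, if_false, hr4]
    simp only [Int.toNat_natCast, Finset.sum_range, hP2, hM]
  rw [h1, (hP (Fin a) (Fin b) ℤ M).2.2 _ k _ (not_mem_rowsLt a U k)]
  push_cast
  rw [← Finset.sum_subset (Finset.subset_univ (maskSet b W))]
  · refine Finset.sum_congr rfl fun x hx => ?_
    have hb := (hMask b).2.2.1 W x hW hx
    have h2 : (((W : ℤ) / 2 ^ (x : ℕ)) % 2) = 1 := by rw [bit_pos, if_pos hx]
    have h3 : ((W : ℤ) - 2 ^ (x : ℕ)) = ((W - 2 ^ (x : ℕ) : ℕ) : ℤ) := by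
      rw [Nat.cast_sub hb.1]
      push_cast
      rfl
    rw [h2, h3, hI.m16 _ hb.2.1, hb.2.2]
    push_cast
    ring
  · intro x _ hx
    have h2 : (((W : ℤ) / 2 ^ (x : ℕ)) % 2) = 0 := by rw [bit_pos, if_neg hx]
    rw [h2]
    push_cast
    ring

theorem step (hP : PermRecStatement) (hMask : MaskStatement) (w n a b : ℕ)
    (M : Fin a → Fin b → ℤ) (s t : St) (U : ℕ) (h20 : s.r 20 = U)
    (hctx : Ctx n a b M s) (k : Fin a) (hI : Inv w n a b M s U k t) :
    Inv w n a b M s U (k + 1) (bodyP.run w (t.setR 29 (k : ℕ))) := by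
  have hr20 : t.r 20 = U := by rw [hI.r 20 (by norm_num)]; exact h20
  have hr11 : t.r 11 = 2 ^ b := by rw [hI.r 11 (by norm_num)]; exact hctx.h11
  have hP2 : t.m 4 ((k : ℕ) : ℤ) = 2 ^ (k : ℕ) := by
    rw [hI.m4]
    exact hctx.hP2 k (by have := k.2; have := hctx.hab; omega)
  have hbit : (bitE (.reg 20) (.reg 29)).eval (t.setR 29 (k : ℕ)) =
      if k ∈ maskSet a U then 1 else 0 := by
    rw [← bit_pos]
    simp only [bitE, Expr.eval, St.setR_r, St.setR_m]
    norm_num only [if_true, if_false, hr20, hP2]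
  by_cases hk : k ∈ maskSet a U
  · rw [if_pos hk] at hbit
    have hrun : bodyP.run w (t.setR 29 (k : ℕ)) =
        (tab 30 11 16 (.arr 17 (.reg 30))).run w
          ((tab 30 11 17 permE).run w (t.setR 29 (k : ℕ))) := by
      have : bodyP.run w (t.setR 29 (k : ℕ)) =
          if (Expr.const 0).eval (t.setR 29 (k : ℕ)) <
            (bitE (.reg 20) (.reg 29)).eval (t.setR 29 (k : ℕ)) then
            (tab 30 11 16 (.arr 17 (.reg 30))).run w
              ((tab 30 11 17 permE).run w (t.setR 29 (k : ℕ))) else t.setR 29 (k : ℕ) := rfl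
      rw [this, hbit, if_pos]
      simp [Expr.eval]
    rw [hrun, run_tab w 30 11 16 _ _ rfl, run_tab w 30 11 17 _ _ rfl]
    refine ⟨?_, ?_, ?_, ?_⟩
    · intro j hj
      simp only [St.setR_r, if_neg hj]
      exact hI.r j hj
    · simp only [ne_eq, Nat.reduceEqDiff, not_false_eq_true, Function.update_of_ne, St.setR_m]
      exact hI.m3
    · simp only [ne_eq, Nat.reduceEqDiff, not_false_eq_true, Function.update_of_ne, St.setR_m]
      exact hI.m4
    · intro W hW
      rw [rowsLt_succ_of_mem a U k hk, ← eval_permE hP hMask w n a b M s t U hctx k hI W hW]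
      have hW' : (0 : ℤ) ≤ (W : ℤ) ∧ (W : ℤ) < (t.setR 29 (k : ℕ)).r 11 := by
        rw [St.setR_r, if_neg (by norm_num), hr11]
        exact ⟨by positivity, by exact_mod_cast hW⟩
      simp only [Function.update_self]
      rw [if_pos hW', cast_emod]
      simp only [Expr.eval, St.setR_m, St.setR_r, if_true, Function.update_self]
      rw [if_pos (by simpa using hW'), cast_emod]
  · rw [if_neg hk] at hbit
    have hrun : bodyP.run w (t.setR 29 (k : ℕ)) = t.setR 29 (k : ℕ) := by
      have : bodyP.run w (t.setR 29 (k : ℕ)) =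
          if (Expr.const 0).eval (t.setR 29 (k : ℕ)) <
            (bitE (.reg 20) (.reg 29)).eval (t.setR 29 (k : ℕ)) then
            (tab 30 11 16 (.arr 17 (.reg 30))).run w
              ((tab 30 11 17 permE).run w (t.setR 29 (k : ℕ))) else t.setR 29 (k : ℕ) := rfl
      rw [this, hbit, if_neg]
      simp [Expr.eval]
    rw [hrun]
    refine ⟨?_, hI.m3, hI.m4, ?_⟩
    · intro j hj
      rw [St.setR_r, if_neg hj]
      exact hI.r j hj
    · intro W hW
      rw [rowsLt_succ_of_not_mem a U k hk, St.setR_m]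
      exact hI.m16 W hW

theorem maskSet_nonempty (hMask : MaskStatement) (b W : ℕ) (hW : W < 2 ^ b) (h0 : W ≠ 0) :
    (maskSet b W).Nonempty := by
  by_contra h
  rw [not_nonempty_iff_eq_empty] at h
  have h1 := (hMask b).1 (fun S => if S = ∅ then 1 else 0)
  rw [Finset.sum_ite_eq' univ (∅ : Finset (Fin b)) (fun _ => (1 : ℤ)), if_pos (mem_univ _)] at h1
  have h2 : maskSet b 0 = ∅ := by simp [maskSet]
  have h3 : ∑ x ∈ ({0, W} : Finset ℕ), (if maskSet b x = ∅ then (1 : ℤ) else 0) ≤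
      ∑ x ∈ range (2 ^ b), (if maskSet b x = ∅ then (1 : ℤ) else 0) := by
    refine Finset.sum_le_sum_of_subset_of_nonneg ?_ ?_
    · intro x hx
      rw [mem_insert, mem_singleton] at hx
      rw [mem_range]
      rcases hx with rfl | rfl
      · positivity
      · exact hW
    · intro x _ _
      split_ifs <;> norm_num
  rw [h1, Finset.sum_pair (Ne.symm h0), h, h2] at h3
  norm_num at h3

theorem permp (hP : PermRecStatement) (hMask : MaskStatement) : PermPStatement := by
  intro w n a b M s U hw hctx hU h20 W hW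
  obtain ⟨t, ht⟩ : ∃ t, t = (tab 30 11 16 (.cond (.reg 30) (.const 1) (.const 1) (.const 0))).run w s :=
    ⟨_, rfl⟩
  have ht' := ht
  rw [run_tab w 30 11 16 _ s rfl] at ht'
  have hI0 : Inv w n a b M s U 0 t := by
    refine ⟨?_, ?_, ?_, ?_⟩
    · intro j _
      rw [ht']
    · rw [ht']
      simp only [ne_eq, Nat.reduceEqDiff, not_false_eq_true, Function.update_of_ne]
    · rw [ht']
      simp only [ne_eq, Nat.reduceEqDiff, not_false_eq_true, Function.update_of_ne]
    · intro W hW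
      rw [ht', rowsLt_zero]
      have hW' : (0 : ℤ) ≤ (W : ℤ) ∧ (W : ℤ) < s.r 11 := by
        rw [hctx.h11]
        exact ⟨by positivity, by exact_mod_cast hW⟩
      simp only [Function.update_self]
      rw [if_pos hW', cast_emod]
      simp only [Expr.eval, St.setR_r, if_true]
      by_cases h0 : W = 0
      · subst h0
        have h2 : maskSet b 0 = ∅ := by simp [maskSet]
        rw [h2, (hP (Fin a) (Fin b) ℤ M).1]
        simp
      · rw [(hP (Fin a) (Fin b) ℤ M).2.1 _ (maskSet_nonempty hMask b W hW h0), if_neg]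
        have : 1 ≤ W := Nat.one_le_iff_ne_zero.2 h0
        have h3 : (1 : ℤ) ≤ W := by exact_mod_cast this
        omega
  have hit : ∀ k : ℕ, k ≤ a → Inv w n a b M s U k (iter (bodyP.run w) 29 t k) := by
    intro k
    induction k with
    | zero =>
      intro _
      exact hI0
    | succ k ih =>
      intro hk
      exact step hP hMask w n a b M s _ U h20 hctx ⟨k, hk⟩ (ih (by omega))
  have hrun : permP.run w s = (iter (bodyP.run w) 29 t ((t.r 3).toNat)).setR 29 (t.r 29) := by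
    subst ht
    rfl
  have hr3 : (t.r 3).toNat = a := by
    rw [hI0.r 3 (by norm_num), hctx.ha]
    simp
  rw [hrun, hr3, St.setR_m, (hit a le_rfl).m16 W hW, rowsLt_top]

end Pool.Agent.Lib.MP_b2ebfc_lc.H66
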