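import Pool.Agent.Lib.MP_b2ebfc_lc.Base

/-!
# Module PERMREC: the recursion for the permanents
-/

set_option autoImplicit false
set_option linter.unusedSectionVars false

namespace Pool.Agent.Lib.MP_b2ebfc_lc.H66

open Finset

variable {α β : Type} [DecidableEq α] [DecidableEq β]

/-- Extend a bijection `U ≃ W \ {w}` by `i ↦ w`. -/
def extendE (U : Finset α) (i : α) (hi : i ∉ U) (W : Finset β) (w : β) (hw : w ∈ W)
    (g : (U ≃ (W.erase w : Finset β))) : ((insert i U : Finset α) ≃ W) where
  toFun x := if h : (x : α) = i then ⟨w, hw⟩ else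
    ⟨g ⟨x, (mem_insert.1 x.2).resolve_left h⟩, mem_of_mem_erase (g _).2⟩
  invFun y := if h : (y : β) = w then ⟨i, mem_insert_self _ _⟩ else
    ⟨g.symm ⟨y, mem_erase.2 ⟨h, y.2⟩⟩, mem_insert_of_mem (g.symm _).2⟩
  left_inv x := by
    by_cases h : (x : α) = i
    · simp only [h, dif_pos]
      exact Subtype.ext h.symm
    · have h2 : ((g ⟨x, (mem_insert.1 x.2).resolve_left h⟩ : (W.erase w : Finset β)) : β) ≠ w :=
        ne_of_mem_erase (g _).2
      simp only [h, dif_neg, not_false_eq_true, h2]
      apply Subtype.ext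
      simp
  right_inv y := by
    by_cases h : (y : β) = w
    · simp only [h, dif_pos]
      exact Subtype.ext h.symm
    · have h2 : ((g.symm ⟨y, mem_erase.2 ⟨h, y.2⟩⟩ : U) : α) ≠ i := by
        intro h3
        apply hi
        rw [← h3]
        exact (g.symm _).2
      simp only [h, dif_neg, not_false_eq_true, h2]
      apply Subtype.ext
      simp

/-- Restrict a bijection `U ∪ {i} ≃ W` with `i ↦ w`. -/
def restrictE (U : Finset α) (i : α) (hi : i ∉ U) (W : Finset β) (w : β) (hw : w ∈ W)
    (e : ((insert i U : Finset α) ≃ W)) (he : e ⟨i, mem_insert_self _ _⟩ = ⟨w, hw⟩) :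
    (U ≃ (W.erase w : Finset β)) where
  toFun x := ⟨e ⟨x, mem_insert_of_mem x.2⟩, by
    rw [mem_erase]
    refine ⟨?_, (e _).2⟩
    intro h
    have h1 : e ⟨x, mem_insert_of_mem x.2⟩ = e ⟨i, mem_insert_self _ _⟩ := by
      rw [he]
      exact Subtype.ext h
    have h2 := congrArg Subtype.val (e.injective h1)
    simp only at h2
    exact hi (h2 ▸ x.2)⟩
  invFun y := ⟨e.symm ⟨y, mem_of_mem_erase y.2⟩, by
    have h1 := (e.symm ⟨y, mem_of_mem_erase y.2⟩).2
    rw [mem_insert] at h1
    rcases h1 with h1 | h1
    · exfalso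
      have h2 : e.symm ⟨y, mem_of_mem_erase y.2⟩ = ⟨i, mem_insert_self _ _⟩ := Subtype.ext h1
      rw [Equiv.symm_apply_eq, he] at h2
      exact ne_of_mem_erase y.2 (congrArg Subtype.val h2)
    · exact h1⟩
  left_inv x := by
    apply Subtype.ext
    simp
  right_inv y := by
    apply Subtype.ext
    simp

theorem permRec : PermRecStatement := by
  intro α β _ _ R _ M
  refine ⟨?_, ?_, ?_⟩
  · unfold perm
    have : Unique ((∅ : Finset α) ≃ (∅ : Finset β)) :=
      ⟨⟨Equiv.equivOfIsEmpty _ _⟩, fun e => by ext x; exact absurd x.2 (notMem_empty _)⟩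
    rw [Fintype.sum_unique]
    simp
  · intro W hW
    unfold perm
    have : IsEmpty ((∅ : Finset α) ≃ W) := by
      constructor
      intro e
      obtain ⟨w, hw⟩ := hW
      exact notMem_empty _ (e.symm ⟨w, hw⟩).2
    simp
  · intro U i W hi
    unfold perm
    have h1 : ∑ f : ((insert i U : Finset α) ≃ W), ∏ x : (insert i U : Finset α), M x (f x) =
        ∑ w : W, ∑ f ∈ (univ : Finset ((insert i U : Finset α) ≃ W)).filter
          (fun f => f ⟨i, mem_insert_self _ _⟩ = w), ∏ x : (insert i U : Finset α), M x (f x) := by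
      rw [Finset.sum_fiberwise]
    rw [h1, ← Finset.sum_coe_sort W]
    refine Finset.sum_congr rfl fun w _ => ?_
    rw [Finset.mul_sum]
    refine Finset.sum_bij' (fun f hf => restrictE U i hi W w w.2 f (mem_filter.1 hf).2)
      (fun g _ => extendE U i hi W w w.2 g) ?_ ?_ ?_ ?_ ?_
    · intro f hf
      exact mem_univ _
    · intro g _
      rw [mem_filter]
      refine ⟨mem_univ _, ?_⟩
      simp [extendE]
    · intro f hf
      rw [mem_filter] at hf
      ext x
      by_cases h : (x : α) = i
      · have h2 : x = ⟨i, mem_insert_self _ _⟩ := Subtype.ext h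
        subst h2
        simp [extendE, hf.2]
      · simp [extendE, restrictE, h]
    · intro g _
      ext x
      have h : (x : α) ≠ i := fun h => hi (h ▸ x.2)
      simp [extendE, restrictE, h]
    · intro f hf
      rw [mem_filter] at hf
      have h2 : ∏ x : (insert i U : Finset α), M x (f x) =
          ∏ x ∈ (insert i U : Finset α), (if h : x ∈ (insert i U : Finset α) then
            M x (f ⟨x, h⟩) else 1) := by
        rw [← Finset.prod_coe_sort (insert i U) (fun x => if h : x ∈ (insert i U : Finset α) then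
            M x (f ⟨x, h⟩) else (1 : R))]
        refine Finset.prod_congr rfl fun x _ => ?_
        simp
      rw [h2, Finset.prod_insert hi]
      have h3 : ∏ x ∈ U, (if h : x ∈ (insert i U : Finset α) then
            M x (f ⟨x, h⟩) else 1) = ∏ x : U, M x (restrictE U i hi W w w.2 f hf.2 x) := by
        rw [← Finset.prod_coe_sort]
        refine Finset.prod_congr rfl fun x _ => ?_
        have : (x : α) ∈ (insert i U : Finset α) := mem_insert_of_mem x.2
        rw [dif_pos this]
        rfl
      rw [h3, dif_pos (mem_insert_self _ _)]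
      have h4 : M i (f ⟨i, mem_insert_self _ _⟩) = M i w := by
        rw [hf.2]
      rw [h4]

end Pool.Agent.Lib.MP_b2ebfc_lc.H66
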