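import Pool.Agent.Lib.MP_b2ebfc_lc.Base

/-!
# Module RYSER: Ryser's formula
-/

set_option autoImplicit false
set_option linter.unusedSectionVars false

namespace Pool.Agent.Lib.MP_b2ebfc_lc.H66

open Finset

variable {α β : Type} [Fintype α] [DecidableEq α] [Fintype β] [DecidableEq β]

theorem incl_excl (U I : Finset α) (hI : I ⊆ U) :
    ∑ R ∈ U.powerset, (if I ⊆ R then (-1 : ℤ) ^ (U.card - R.card) else 0) =
      if I = U then 1 else 0 := by
  rw [← Finset.sum_filter]
  have h1 : ∑ R ∈ U.powerset.filter (fun R => I ⊆ R), (-1 : ℤ) ^ (U.card - R.card) =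
      ∑ X ∈ (U \ I).powerset, (-1 : ℤ) ^ X.card := by
    refine Finset.sum_bij' (fun R _ => U \ R) (fun X _ => U \ X) ?_ ?_ ?_ ?_ ?_
    · intro R hR
      rw [mem_filter, mem_powerset] at hR
      rw [mem_powerset]
      exact sdiff_subset_sdiff (le_refl _) hR.2
    · intro X hX
      rw [mem_powerset] at hX
      rw [mem_filter, mem_powerset]
      refine ⟨sdiff_subset, ?_⟩
      intro x hx
      rw [mem_sdiff]
      refine ⟨hI hx, fun hxX => ?_⟩
      have := hX hxX
      rw [mem_sdiff] at this
      exact this.2 hx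
    · intro R hR
      rw [mem_filter, mem_powerset] at hR
      exact Finset.sdiff_sdiff_eq_self hR.1
    · intro X hX
      rw [mem_powerset] at hX
      exact Finset.sdiff_sdiff_eq_self (subset_trans hX sdiff_subset)
    · intro R hR
      rw [mem_filter, mem_powerset] at hR
      rw [card_sdiff_of_subset hR.1]
  rw [h1, Finset.sum_powerset_neg_one_pow_card]
  have h2 : U \ I = ∅ ↔ I = U := by
    rw [sdiff_eq_empty_iff_subset]
    constructor
    · intro h
      exact subset_antisymm hI h
    · intro h
      rw [h]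
  simp only [h2]

theorem fiber_sum' (F : ∀ W : Finset β, (W → α) → ℤ) (U : Finset α) (W : Finset β)
    (hUW : U.card = W.card) :
    ∑ f ∈ (Fintype.piFinset (fun _ : W => U)).filter (fun f => univ.image f = U), F W f =
    ∑ σ : (U ≃ W), F W (fun x => (σ.symm x : α)) := by
  symm
  refine Finset.sum_bij (fun (σ : U ≃ W) _ => fun x : W => (σ.symm x : α)) ?_ ?_ ?_ ?_
  · intro σ _
    simp only [mem_filter, Fintype.mem_piFinset]
    refine ⟨fun x => (σ.symm x).2, ?_⟩
    ext a
    simp only [mem_image, mem_univ, true_and]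
    constructor
    · rintro ⟨x, rfl⟩
      exact (σ.symm x).2
    · intro ha
      exact ⟨σ ⟨a, ha⟩, by simp⟩
  · intro σ _ τ _ h
    have : σ.symm = τ.symm := by
      ext x
      exact congrFun h x
    have h2 := congrArg Equiv.symm this
    simpa using h2
  · intro f hf
    simp only [mem_filter, Fintype.mem_piFinset] at hf
    obtain ⟨hmem, him⟩ := hf
    have hs : Function.Surjective (fun x : W => (⟨f x, hmem x⟩ : U)) := by
      rintro ⟨a, ha⟩
      rw [← him] at ha
      simp only [mem_image, mem_univ, true_and] at ha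
      obtain ⟨x, hx⟩ := ha
      exact ⟨x, Subtype.ext hx⟩
    have hb : Function.Bijective (fun x : W => (⟨f x, hmem x⟩ : U)) := by
      rw [Fintype.bijective_iff_surjective_and_card]
      refine ⟨hs, ?_⟩
      simp [hUW]
    refine ⟨(Equiv.ofBijective _ hb).symm, mem_univ _, ?_⟩
    funext x
    simp
  · intro σ _
    rfl

theorem ryser : RyserStatement := by
  intro α β _ _ _ _ M U W hUW
  have h1 : perm M U W = ∑ f ∈ (Fintype.piFinset (fun _ : W => U)).filter
      (fun f => univ.image f = U), ∏ w : W, M (f w) w := by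
    rw [fiber_sum' (fun W f => ∏ w : W, M (f w) w) U W hUW]
    unfold perm
    refine Finset.sum_congr rfl fun σ _ => ?_
    rw [← Equiv.prod_comp σ]
    simp
  have h2 : ∀ R ∈ U.powerset, (-1 : ℤ) ^ (U.card - R.card) * ∏ w ∈ W, ∑ i ∈ R, M i w =
      ∑ f ∈ Fintype.piFinset (fun _ : W => U), (if univ.image f ⊆ R then
        (-1 : ℤ) ^ (U.card - R.card) else 0) * ∏ w : W, M (f w) w := by
    intro R hR
    rw [mem_powerset] at hR
    rw [← Finset.prod_coe_sort, Finset.prod_univ_sum, Finset.mul_sum]
    have h3 : ∀ f : W → α, ((if univ.image f ⊆ R then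
        (-1 : ℤ) ^ (U.card - R.card) else 0) * ∏ w : W, M (f w) w) =
        if f ∈ Fintype.piFinset (fun _ : W => R) then
          (-1 : ℤ) ^ (U.card - R.card) * ∏ w : W, M (f w) w else 0 := by
      intro f
      have : univ.image f ⊆ R ↔ f ∈ Fintype.piFinset (fun _ : W => R) := by
        rw [Fintype.mem_piFinset]
        constructor
        · intro h w
          exact h (mem_image_of_mem _ (mem_univ _))
        · intro h a ha
          simp only [mem_image, mem_univ, true_and] at ha
          obtain ⟨x, rfl⟩ := ha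
          exact h x
      simp only [this]
      split_ifs <;> simp
    rw [Finset.sum_congr rfl fun f _ => h3 f, ← Finset.sum_filter]
    refine Finset.sum_congr ?_ fun _ _ => rfl
    ext f
    simp only [mem_filter, Fintype.mem_piFinset]
    constructor
    · intro h
      exact ⟨fun w => hR (h w), h⟩
    · intro h
      exact h.2
  rw [Finset.sum_congr rfl h2, Finset.sum_comm, h1, Finset.sum_filter]
  refine Finset.sum_congr rfl fun f hf => ?_
  rw [← Finset.sum_mul, incl_excl]
  · split_ifs <;> simp
  · intro a ha
    simp only [mem_image, mem_univ, true_and] at ha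
    obtain ⟨x, rfl⟩ := ha
    rw [Fintype.mem_piFinset] at hf
    exact hf x

end Pool.Agent.Lib.MP_b2ebfc_lc.H66
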